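import Pool.Agent.Y250.SS.Stm

/-!
# Project SS: the sup bounds from one half
-/

set_option autoImplicit false

namespace Pool.Agent.Y279.SS

open MeasureTheory Set Complex Filter Topology
open scoped ENNReal NNReal
open Pool.Agent.Y250.SS

/-- exchange of the first two variables -/
noncomputable def sw (P : Poly3) : Poly3 := MvPolynomial.rename (Equiv.swap (0 : Fin 3) 1) P

lemma ev3_sw (P : Poly3) (a b c : ℝ) : ev3 (sw P) a b c = ev3 P b a c := by
  unfold ev3 sw
  have e : (![a, b, c] ∘ Equiv.swap (0 : Fin 3) 1) = ![b, a, c] := by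
    ext i
    fin_cases i
    · simp
    · simp
    · have : (Equiv.swap (0 : Fin 3) 1) 2 = 2 := by decide
      simp [this]
  rw [MvPolynomial.eval_rename, e]

lemma deg_sw {P : Poly3} {n : ℕ} (hP : P.totalDegree ≤ n) : (sw P).totalDegree ≤ n :=
  (MvPolynomial.totalDegree_rename_le _ _).trans hP

lemma pd0_sw (P : Poly3) : pd 0 (sw P) = sw (pd 1 P) := by
  have h := MvPolynomial.pderiv_rename (R := ℝ) (f := Equiv.swap (0 : Fin 3) 1)
    (Equiv.injective _) (x := 1) P
  rw [Equiv.swap_apply_right] at h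
  exact h

lemma pd1_sw (P : Poly3) : pd 1 (sw P) = sw (pd 0 P) := by
  have h := MvPolynomial.pderiv_rename (R := ℝ) (f := Equiv.swap (0 : Fin 3) 1)
    (Equiv.injective _) (x := 0) P
  rw [Equiv.swap_apply_left] at h
  exact h

lemma pd2_sw (P : Poly3) : pd 2 (sw P) = sw (pd 2 P) := by
  have h := MvPolynomial.pderiv_rename (R := ℝ) (f := Equiv.swap (0 : Fin 3) 1)
    (Equiv.injective _) (x := 2) P
  have e : (Equiv.swap (0 : Fin 3) 1) 2 = 2 := by decide
  rw [e] at h
  exact h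

lemma pd_comm (i j : Fin 3) (P : Poly3) : pd i (pd j P) = pd j (pd i P) := by
  unfold pd
  have h : ⁅(MvPolynomial.pderiv i : Derivation ℝ Poly3 Poly3),
      (MvPolynomial.pderiv j : Derivation ℝ Poly3 Poly3)⁆ = 0 := by
    apply MvPolynomial.derivation_ext
    intro k
    rw [Derivation.commutator_apply]
    classical
    rw [MvPolynomial.pderiv_X, MvPolynomial.pderiv_X]
    simp only [Pi.single_apply]
    split_ifs <;> simp
  have h2 := congrArg (fun D : Derivation ℝ Poly3 Poly3 => D P) h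
  simp only [Derivation.commutator_apply, Derivation.coe_zero, Pi.zero_apply] at h2
  exact sub_eq_zero.mp h2

lemma hh_swap (x : ℝ × ℝ) : hh x.swap = hh x := by
  unfold hh
  congr 1
  simp only [Prod.fst_swap, Prod.snd_swap]
  ring

lemma g1_sw (P : Poly3) (x : ℝ × ℝ) : g1 (sw P) x = g2 P x.swap := by
  unfold g1 g2
  rw [pd0_sw, pd2_sw, ev3_sw, ev3_sw, hh_swap, Prod.fst_swap, Prod.snd_swap]

lemma g2_sw (P : Poly3) (x : ℝ × ℝ) : g2 (sw P) x = g1 P x.swap := by
  unfold g1 g2
  rw [pd1_sw, pd2_sw, ev3_sw, ev3_sw, hh_swap, Prod.fst_swap, Prod.snd_swap]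

lemma G11_swap (x : ℝ × ℝ) : G11 x.swap = G22 x := by
  unfold G11 G22
  rw [hh_swap, Prod.fst_swap]

lemma G22_swap (x : ℝ × ℝ) : G22 x.swap = G11 x := by
  unfold G11 G22
  rw [hh_swap, Prod.snd_swap]

lemma G12_swap (x : ℝ × ℝ) : G12 x.swap = G12 x := by
  unfold G12
  rw [hh_swap, Prod.fst_swap, Prod.snd_swap, mul_comm x.2]

lemma H11_sw (P : Poly3) (x : ℝ × ℝ) : H11 (sw P) x = H22 P x.swap := by
  unfold H11 H22
  rw [G22_swap, pd2_sw, pd0_sw, pd0_sw, pd0_sw, pd2_sw, ev3_sw, ev3_sw, ev3_sw, ev3_sw, hh_swap,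
    Prod.fst_swap, Prod.snd_swap]

lemma H22_sw (P : Poly3) (x : ℝ × ℝ) : H22 (sw P) x = H11 P x.swap := by
  unfold H11 H22
  rw [G11_swap, pd2_sw, pd1_sw, pd1_sw, pd1_sw, pd2_sw, ev3_sw, ev3_sw, ev3_sw, ev3_sw, hh_swap,
    Prod.fst_swap, Prod.snd_swap]

lemma H12_sw (P : Poly3) (x : ℝ × ℝ) : H12 (sw P) x = H12 P x.swap := by
  unfold H12
  rw [G12_swap, pd2_sw, pd1_sw, pd0_sw, pd0_sw, pd1_sw, pd2_sw, ev3_sw, ev3_sw, ev3_sw, ev3_sw,
    ev3_sw, hh_swap, Prod.fst_swap, Prod.snd_swap, pd_comm 1 0]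
  ring

lemma CD_swap (s α β γ e f g : ℝ) : CD s α β γ e f g ↔ CD s γ β α g f e := by
  unfold CD
  have e1 : g * α - 2 * f * β + e * γ = e * γ - 2 * f * β + g * α := by ring
  have e2 : e * g - f ^ 2 = g * e - f ^ 2 := by ring
  have e3 : α * γ - β ^ 2 = γ * α - β ^ 2 := by ring
  rw [e1, e2, e3]

lemma mem_RG_sw (P : Poly3) (s : ℝ) (x : ℝ × ℝ) : x ∈ RG (sw P) s ↔ x.swap ∈ RG P s := by
  change CD s (H11 (sw P) x) (H12 (sw P) x) (H22 (sw P) x) (G11 x) (G12 x) (G22 x) ↔
    CD s (H11 P x.swap) (H12 P x.swap) (H22 P x.swap) (G11 x.swap) (G12 x.swap) (G22 x.swap)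
  rw [H11_sw, H12_sw, H22_sw, G11_swap, G22_swap, G12_swap]
  exact CD_swap _ _ _ _ _ _ _

lemma w_swap (u : ℝ × ℝ) : w u.swap = w u := by
  unfold w
  rw [Prod.fst_swap, Prod.snd_swap]
  ring

lemma X_swap (u : ℝ × ℝ) : X u.swap = (X u).swap := by
  unfold X
  rw [w_swap]
  rfl

lemma X11_swap (u : ℝ × ℝ) : X11 u.swap = X22 u := by
  unfold X11 X22
  rw [w_swap, Prod.fst_swap, Prod.snd_swap]
  ring

lemma X22_swap (u : ℝ × ℝ) : X22 u.swap = X11 u := by
  unfold X11 X22
  rw [w_swap, Prod.fst_swap, Prod.snd_swap]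
  ring

lemma X12_swap (u : ℝ × ℝ) : X12 u.swap = X12 u := by
  unfold X12
  rw [w_swap, Prod.fst_swap, Prod.snd_swap]
  ring

lemma jac_swap (u : ℝ × ℝ) : jac u.swap = jac u := by
  unfold jac
  rw [w_swap]

lemma Eu1_sw (P : Poly3) (u : ℝ × ℝ) : Eu1 (sw P) u = Eu2 P u.swap := by
  unfold Eu1 Eu2
  rw [g1_sw, g2_sw, X_swap, X22_swap, X12_swap]
  ring

lemma Eu2_sw (P : Poly3) (u : ℝ × ℝ) : Eu2 (sw P) u = Eu1 P u.swap := by
  unfold Eu1 Eu2
  rw [g1_sw, g2_sw, X_swap, X11_swap, X12_swap]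
  ring

lemma Ps_sw (P : Poly3) (u : ℝ × ℝ) : Ps (sw P) u = Ps P u.swap := by
  unfold Ps
  rw [ev3_sw, w_swap, Prod.fst_swap, Prod.snd_swap]

/-! ### Measurability -/

lemma ev3_meas {α : Type} [MeasurableSpace α] (P : Poly3) {a b c : α → ℝ} (ha : Measurable a)
    (hb : Measurable b) (hc : Measurable c) : Measurable fun x => ev3 P (a x) (b x) (c x) := by
  unfold ev3
  refine (MvPolynomial.continuous_eval P).measurable.comp (measurable_pi_iff.2 fun i => ?_)
  fin_cases i
  · exact ha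
  · exact hb
  · exact hc

lemma hh_meas : Measurable hh := by
  unfold hh
  fun_prop

lemma e_meas (P : Poly3) : Measurable fun x : ℝ × ℝ => ev3 P x.1 x.2 (-hh x) :=
  ev3_meas P measurable_fst measurable_snd hh_meas.neg

lemma g1_meas (P : Poly3) : Measurable (g1 P) := by
  have := hh_meas
  have h1 := e_meas (pd 0 P)
  have h2 := e_meas (pd 2 P)
  unfold g1
  fun_prop

lemma g2_meas (P : Poly3) : Measurable (g2 P) := by
  have := hh_meas
  have h1 := e_meas (pd 1 P)
  have h2 := e_meas (pd 2 P)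
  unfold g2
  fun_prop

lemma G11_meas : Measurable G11 := by
  have := hh_meas
  unfold G11
  fun_prop

lemma G12_meas : Measurable G12 := by
  have := hh_meas
  unfold G12
  fun_prop

lemma G22_meas : Measurable G22 := by
  have := hh_meas
  unfold G22
  fun_prop

lemma H11_meas (P : Poly3) : Measurable (H11 P) := by
  have := hh_meas
  have h1 := e_meas (pd 0 (pd 0 P))
  have h2 := e_meas (pd 0 (pd 2 P))
  have h3 := e_meas (pd 2 (pd 2 P))
  have h4 := e_meas (pd 2 P)
  have h5 := G11_meas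
  unfold H11
  fun_prop

lemma H12_meas (P : Poly3) : Measurable (H12 P) := by
  have := hh_meas
  have h1 := e_meas (pd 0 (pd 1 P))
  have h2 := e_meas (pd 0 (pd 2 P))
  have h2' := e_meas (pd 1 (pd 2 P))
  have h3 := e_meas (pd 2 (pd 2 P))
  have h4 := e_meas (pd 2 P)
  have h5 := G12_meas
  unfold H12
  fun_prop

lemma H22_meas (P : Poly3) : Measurable (H22 P) := by
  have := hh_meas
  have h1 := e_meas (pd 1 (pd 1 P))
  have h2 := e_meas (pd 1 (pd 2 P))
  have h3 := e_meas (pd 2 (pd 2 P))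
  have h4 := e_meas (pd 2 P)
  have h5 := G22_meas
  unfold H22
  fun_prop

lemma RG_meas (P : Poly3) (s : ℝ) : MeasurableSet (RG P s) := by
  have h1 := H11_meas P
  have h2 := H12_meas P
  have h3 := H22_meas P
  have h4 := G11_meas
  have h5 := G12_meas
  have h6 := G22_meas
  have m1 : Measurable fun x : ℝ × ℝ =>
      (G22 x * H11 P x - 2 * G12 x * H12 P x + G11 x * H22 P x) ^ 2 -
        2 * (G11 x * G22 x - G12 x ^ 2) * (H11 P x * H22 P x - H12 P x ^ 2) -
        2 * s ^ 2 * (G11 x * G22 x - G12 x ^ 2) ^ 2 := by fun_prop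
  have m2 : Measurable fun x : ℝ × ℝ =>
      ((H11 P x * H22 P x - H12 P x ^ 2) + s ^ 2 * (G11 x * G22 x - G12 x ^ 2)) ^ 2 -
        s ^ 2 * (G22 x * H11 P x - 2 * G12 x * H12 P x + G11 x * H22 P x) ^ 2 := by fun_prop
  exact (measurableSet_lt measurable_const m1).inter (measurableSet_lt measurable_const m2)

lemma w_meas : Measurable w := by
  unfold w
  fun_prop

lemma X_meas : Measurable X := by
  have := w_meas
  unfold X
  fun_prop

lemma Eu1_meas (P : Poly3) : Measurable (Eu1 P) := by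
  have := w_meas
  have h1 := (g1_meas P).comp X_meas
  have h2 := (g2_meas P).comp X_meas
  have h3 : Measurable X11 := by unfold X11; fun_prop
  have h4 : Measurable X12 := by unfold X12; fun_prop
  exact (h3.mul h1).add (h4.mul h2)

lemma Eu2_meas (P : Poly3) : Measurable (Eu2 P) := by
  have := w_meas
  have h1 := (g1_meas P).comp X_meas
  have h2 := (g2_meas P).comp X_meas
  have h3 : Measurable X12 := by unfold X12; fun_prop
  have h4 : Measurable X22 := by unfold X22; fun_prop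
  exact (h3.mul h1).add (h4.mul h2)

lemma HFf_meas (P : Poly3) : MeasurableSet (HF false P) := by
  have h1 := (Eu1_meas P).abs
  have h2 := (Eu2_meas P).abs
  exact measurableSet_le h2 h1

lemma jac_meas : Measurable jac := by
  have := w_meas
  unfold jac
  fun_prop

lemma Ps_meas (P : Poly3) : Measurable (Ps P) := by
  have := w_meas
  unfold Ps
  exact ev3_meas P (by fun_prop) (by fun_prop) (by fun_prop)

lemma jac_le (u : ℝ × ℝ) : |jac u| ≤ 4 := by
  have h1 : 1 ≤ w u := by unfold w; nlinarith [sq_nonneg u.1, sq_nonneg u.2]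
  unfold jac
  rw [abs_div, abs_of_pos (by positivity : (0 : ℝ) < w u ^ 3), div_le_iff₀ (by positivity), abs_mul,
    abs_of_pos (by norm_num : (0 : ℝ) < 4)]
  have h2 : |2 - w u| ≤ w u := by
    rw [abs_le]
    constructor <;> linarith
  have h3 : w u ≤ w u ^ 3 := le_self_pow₀ h1 (by norm_num)
  nlinarith

/-! ### The bound -/

theorem su : S_SH → S_SU := by
  rintro ⟨C, hC, hS⟩
  refine ⟨2 * C, by positivity, ?_⟩
  intro n P j s' hn hP
  set A : Set (ℝ × ℝ) := X ⁻¹' (RG P (2 ^ j) \ RG P s') with hA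
  have hAm : MeasurableSet A := X_meas ((RG_meas P _).diff (RG_meas P _))
  have h1 := hS n P j s' false hn hP
  have h2 := hS n (sw P) j s' true hn (deg_sw hP)
  rw [← hA] at h1
  obtain ⟨F, hF⟩ : ∃ F : ℝ × ℝ → ℂ, F = fun u => ((jac u : ℝ) : ℂ) * cexp ((Ps P u : ℂ) * I) :=
    ⟨_, rfl⟩
  have hFm : Measurable F := by
    have a1 := jac_meas
    have a2 := Ps_meas P
    rw [hF]
    fun_prop
  have hFb : ∀ u, ‖F u‖ ≤ 4 := by
    intro u
    rw [hF]
    simp only [norm_mul, Complex.norm_exp_ofReal_mul_I, mul_one, Complex.norm_real,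
      Real.norm_eq_abs]
    exact jac_le u
  have hfin : volume (U n) ≠ ∞ := by
    have hsub : U n ⊆ Icc (-1 : ℝ) 1 ×ˢ Icc (-1 : ℝ) 1 := by
      intro u hu
      have h3 : u.1 ^ 2 + u.2 ^ 2 < 1 / (6 * n) := hu
      have hn' : (1 : ℝ) ≤ n := by exact_mod_cast hn
      have h4 : 1 / (6 * (n : ℝ)) ≤ 1 := by
        rw [div_le_one (by positivity)]
        linarith
      have h5 : u.1 ^ 2 ≤ 1 := by nlinarith [sq_nonneg u.2]
      have h6 : u.2 ^ 2 ≤ 1 := by nlinarith [sq_nonneg u.1]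
      rw [sq_le_one_iff_abs_le_one, abs_le] at h5 h6
      exact ⟨h5, h6⟩
    refine ne_top_of_le_ne_top ?_ (measure_mono hsub)
    rw [Measure.volume_eq_prod, Measure.prod_prod, Real.volume_Icc]
    exact ENNReal.mul_ne_top ENNReal.ofReal_ne_top ENNReal.ofReal_ne_top
  have hint : ∀ S : Set (ℝ × ℝ), MeasurableSet S → IntegrableOn (S.indicator F) (U n) := by
    intro S hS
    refine Measure.integrableOn_of_bounded (M := 4) hfin (hFm.indicator hS).aestronglyMeasurable
      (ae_of_all _ fun z => ?_)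
    by_cases h : z ∈ S
    · rw [indicator_of_mem h]
      exact hFb _
    · rw [indicator_of_notMem h, norm_zero]
      norm_num
  set S2 : Set (ℝ × ℝ) := A \ HF false P with hS2
  have hS2m : MeasurableSet S2 := hAm.diff (HFf_meas P)
  have e1 : ∫ z in U n, A.indicator F z =
      (∫ z in U n, (A ∩ HF false P).indicator F z) + ∫ z in U n, S2.indicator F z := by
    rw [← integral_add (hint _ (hAm.inter (HFf_meas P))) (hint _ hS2m)]
    congr 1
    ext z
    simp only [hS2]
    by_cases hz : z ∈ A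
    · by_cases hz2 : z ∈ HF false P
      · rw [indicator_of_mem hz, indicator_of_mem (show z ∈ A ∩ HF false P from ⟨hz, hz2⟩),
          indicator_of_notMem (fun h => h.2 hz2), add_zero]
      · rw [indicator_of_mem hz, indicator_of_notMem (fun h => hz2 h.2),
          indicator_of_mem (show z ∈ A \ HF false P from ⟨hz, hz2⟩), zero_add]
    · rw [indicator_of_notMem hz, indicator_of_notMem (fun h => hz h.1),
        indicator_of_notMem (fun h => hz h.1), add_zero]
  have e2 : ∫ z in U n, S2.indicator F z =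
      ∫ u in U n, (X ⁻¹' (RG (sw P) (2 ^ j) \ RG (sw P) s') ∩ HF true (sw P)).indicator
        (fun u => ((jac u : ℝ) : ℂ) * cexp ((Ps (sw P) u : ℂ) * I)) u := by
    have hmp : MeasurePreserving (Prod.swap : ℝ × ℝ → ℝ × ℝ) volume volume :=
      Measure.measurePreserving_swap
    have h3 := hmp.setIntegral_preimage_emb (MeasurableEquiv.prodComm (α := ℝ)
      (β := ℝ)).measurableEmbedding (fun z => S2.indicator F z) (U n)
    have hpre : Prod.swap ⁻¹' U n = U n := by
      ext z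
      unfold U
      simp only [mem_preimage, mem_ofPred_eq, Prod.fst_swap, Prod.snd_swap]
      rw [add_comm]
    rw [hpre] at h3
    rw [← h3]
    congr 1
    ext z
    have hmem : z.swap ∈ S2 ↔
        z ∈ X ⁻¹' (RG (sw P) (2 ^ j) \ RG (sw P) s') ∩ HF true (sw P) := by
      simp only [hS2, hA, HF, Set.mem_sdiff, mem_inter_iff, mem_preimage, mem_ofPred_eq,
        mem_RG_sw, X_swap, Eu1_sw, Eu2_sw, Bool.false_eq_true, if_false, if_true, not_le]
    by_cases hz : z.swap ∈ S2
    · rw [indicator_of_mem hz, indicator_of_mem (hmem.mp hz), hF]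
      simp only [jac_swap, Ps_sw]
    · rw [indicator_of_notMem hz, indicator_of_notMem (fun h => hz (hmem.mpr h))]
  rw [← hF] at h1 ⊢
  rw [e1, e2]
  refine (norm_add_le _ _).trans ((add_le_add h1 h2).trans (le_of_eq ?_))
  ring

theorem sx : S_SU → S_CV → S_XF → S_SX := by
  rintro ⟨C, hC, hS⟩ hcv hxf
  refine ⟨C, hC, ?_⟩
  intro n P j s' hn hP
  have h1 := hS n P j s' hn hP
  rw [hcv n hn]
  refine le_trans (le_of_eq ?_) h1
  congr 1
  have hUm : MeasurableSet (U n) := by
    unfold U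
    exact measurableSet_lt (by fun_prop) measurable_const
  refine setIntegral_congr_fun hUm ?_
  intro u hu
  have h3 : u.1 ^ 2 + u.2 ^ 2 < 1 / (6 * n) := hu
  have hn' : (1 : ℝ) ≤ n := by exact_mod_cast hn
  have h4 : 1 / (6 * (n : ℝ)) ≤ 1 := by
    rw [div_le_one (by positivity)]
    linarith
  have h5 := hxf.1 u (by linarith)
  have hw : w u ≠ 0 := by
    have : 1 ≤ w u := by unfold w; nlinarith [sq_nonneg u.1, sq_nonneg u.2]
    linarith
  have h6 : ph P (X u) = Ps P u := by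
    unfold ph Ps
    rw [h5]
    have : -((2 - w u) / w u) = 1 - 2 / w u := by
      field_simp
      ring
    rw [this]
    rfl
  by_cases h : X u ∈ RG P (2 ^ j) \ RG P s'
  · simp only
    rw [indicator_of_mem h, indicator_of_mem (show u ∈ X ⁻¹' (RG P (2 ^ j) \ RG P s') from h), h6]
  · simp only
    rw [indicator_of_notMem h,
      indicator_of_notMem (show u ∉ X ⁻¹' (RG P (2 ^ j) \ RG P s') from h), mul_zero]

end Pool.Agent.Y279.SS
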